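import Mathlib
import Pool.Agent.H913.SGP.Definitions

/-! Averaged Sobolev norms on Harish-Chandra modules and the pseudometric on `Norm(V, w)`:
definitions for MP_d9e438_al. The basic definitions (real reductive groups, Harish-Chandra modules,
weights, `Norm(V, w)`, Sobolev operators) are in `Pool.Agent.H913.SGP.Definitions`. -/

open Matrix NormedSpace
open scoped Matrix

universe u

namespace Pool.Agent.H913.AVP

open Pool.Agent.H913.SGP

section

variable {n : ℕ} {G : Type} [Group G] [TopologicalSpace G] {GR : Subgroup (GL (Fin n) ℝ)}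
  {ρ : G →* GL (Fin n) ℝ} {V : Type u} [AddCommGroup V] [Module ℂ V]

/-- `c` is the value `p_s(g • v)`, where `p_s v = p (T v)` and `p ∈ Norm(V, w)`: on the completion `E`
of `V` for `p` (with its representation `π` of `G`) the vector `g • v` lies in the domain of the closure
of the operator `T`, and `c` is the norm of its image. -/
def IsValue (Mo : HCModule GR ρ V) (w : G → ℝ) (p : V → ℝ) (T : Module.End ℂ V) (g : G) (v : V)
    (c : ℝ) : Prop :=
  ∃ (E : Type u) (_ : NormedAddCommGroup E) (_ : NormedSpace ℂ E) (_ : CompleteSpace E)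
    (ι : V →ₗ[ℂ] E) (π : G →* (E →L[ℂ] E)),
    IsGlobalization Mo ι π ∧ (∀ v, p v = ‖ι v‖) ∧ (∃ C : ℝ, 0 < C ∧ ∀ g, ‖π g‖ ≤ C * w g) ∧
    ∃ y : E, (π g (ι v), y) ∈ closure (Set.range fun u => (ι u, ι (T u))) ∧ c = ‖y‖

/-- All sums `∑ w(gᵢ⁻¹) p_s(gᵢ • vᵢ)` over finite decompositions `v = ∑ vᵢ` and `gᵢ ∈ G`, where
`p_s v = p ((1 + Δ_K)^(s/2) v)`. -/
def avgSet (Mo : HCModule GR ρ V) {m : ℕ} (b : Fin m → LieAlg GR) (w : G → ℝ) (s : ℝ) (p : V → ℝ)
    (v : V) : Set ℝ :=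
  {r | ∃ T : Module.End ℂ V, IsSobolevPow Mo b s T ∧
    ∃ (k : ℕ) (g : Fin k → G) (u : Fin k → V) (c : Fin k → ℝ), v = ∑ i, u i ∧
      (∀ i, IsValue Mo w p T (g i) (u i) (c i)) ∧ r = ∑ i, w (g i)⁻¹ * c i}

/-- The averaged norm `p_s^G`. -/
noncomputable def avg (Mo : HCModule GR ρ V) {m : ℕ} (b : Fin m → LieAlg GR) (w : G → ℝ) (s : ℝ)
    (p : V → ℝ) (v : V) : ℝ := sInf (avgSet Mo b w s p v)

/-- `Norm(V, w)` as a type (without any topology). -/
structure NormIn (Mo : HCModule GR ρ V) (w : G → ℝ) where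
  /-- the norm -/
  p : V → ℝ
  mem : IsNormIn Mo w p

/-- The set of all `s ≥ 0` with `p ≲ q_s`. -/
def dSet (Mo : HCModule GR ρ V) {m : ℕ} (b : Fin m → LieAlg GR) (p q : V → ℝ) : Set ℝ :=
  {s | 0 ≤ s ∧ ∃ T : Module.End ℂ V, IsSobolevPow Mo b s T ∧ NormLE p fun v => q (T v)}

/-- The pseudometric `d([p],[q])`. -/
noncomputable def sdist (Mo : HCModule GR ρ V) {m : ℕ} (b : Fin m → LieAlg GR) (p q : V → ℝ) : ℝ :=
  max (sInf (dSet Mo b p q)) (sInf (dSet Mo b q p))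

end

end Pool.Agent.H913.AVP
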